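import Pool.Agent.H6.LD.Stm

set_option autoImplicit false

open Filter Topology MeasureTheory

namespace Pool.Agent.H99.LD

open Pool.Agent.H6.LD

open scoped Classical in
lemma toLD (hLOG : S_LOG) (hHME : S_HME) (E : ℕ → Prop) (f : ℝ → ℂ) (m : ℝ) (t0 : ℝ)
    (hfm : Measurable f) (hfb : ∃ C : ℝ, ∀ t, ‖f t‖ ≤ C)
    (h : ∀ t, t0 ≤ t → f t = if E ⌊Real.exp t⌋₊ then 1 else 0) (hm : HasMean f m) :
    HasLD E m := by
  refine hLOG E m ?_
  refine hHME f _ t0 hfm ?_ hfb ⟨1, fun t => ?_⟩ h m hm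
  · have h1 : Measurable (fun n : ℕ => if E n then (1 : ℂ) else 0) := Measurable.of_discrete
    exact h1.comp (Nat.measurable_floor.comp Real.measurable_exp)
  · split_ifs <;> simp

lemma ap_one (M : AddSubgroup ℝ) : AP M (fun _ => 1) := by
  refine ⟨measurable_const, ⟨1, fun t => by simp⟩, fun ε hε => ?_⟩
  refine ⟨expo 0, Submodule.subset_span ⟨0, M.zero_mem, rfl⟩, 0, fun T hT => ?_⟩
  have h : ∀ t : ℝ, ‖(1 : ℂ) - expo 0 t‖ = 0 := by
    intro t
    simp [expo]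
  simp only [h, intervalIntegral.integral_zero]
  positivity

lemma mean_real {f : ℝ → ℂ} {g : ℝ → ℝ} (hfg : ∀ t, f t = (g t : ℂ)) {m : ℂ} (hm : HasMean f m) :
    (m.re : ℂ) = m := by
  have h1 : ∀ T : ℝ, (((1 / T : ℝ) : ℂ) * ∫ t in (0 : ℝ)..T, f t).im = 0 := by
    intro T
    have h2 : ∫ t in (0 : ℝ)..T, f t = ((∫ t in (0 : ℝ)..T, g t : ℝ) : ℂ) := by
      rw [← intervalIntegral.integral_ofReal]
      simp only [hfg]
    rw [h2, ← Complex.ofReal_mul, Complex.ofReal_im]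
  have h2 : Tendsto (fun T : ℝ => (((1 / T : ℝ) : ℂ) * ∫ t in (0 : ℝ)..T, f t).im) atTop
      (𝓝 m.im) := (Complex.continuous_im.tendsto m).comp hm
  simp only [h1] at h2
  have h3 : (0 : ℝ) = m.im := tendsto_nhds_unique tendsto_const_nhds h2
  exact Complex.ext (by simp) (by simp [← h3])

/-- real version of `ind` -/
lemma ind_real (w a t : ℝ) : ∃ x : ℝ, ind w a t = (x : ℂ) := by
  unfold ind
  split_ifs
  · exact ⟨1, by simp⟩
  · exact ⟨0, by simp⟩

lemma ind_bd (hWIN : S_WIN) {p : ℕ} (hp : p.Prime) {t : ℝ} (ht : Real.log p ≤ t) :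
    (Bd p ⌊Real.exp t⌋₊ → ind (Real.log p) (aa p) t = 1) ∧
    (¬ Bd p ⌊Real.exp t⌋₊ → ind (Real.log p) (aa p) t = 0) := by
  have h := hWIN p hp t ht
  unfold ind
  constructor
  · intro h1
    rw [if_pos (h.mp h1)]
  · intro h1
    rw [if_neg (fun h2 => h1 (h.mpr h2))]

lemma logp_pos {p : ℕ} (hp : p.Prime) : 0 < Real.log p :=
  Real.log_pos (by exact_mod_cast hp.one_lt)

theorem t_FIN (hAP1 : S_AP1) (hAP2 : S_AP2) (hAP3 : S_AP3) (hIND : S_IND) (hWIN : S_WIN)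
    (hAAB : S_AAB) (hLOG : S_LOG) (hHME : S_HME) : S_FIN := by
  classical
  intro y
  have key : ∀ S : Finset ℕ, (∀ p ∈ S, p.Prime) →
      ∃ M, AP M (fun t => ∏ p ∈ S, (1 - ind (Real.log p) (aa p) t)) := by
    intro S
    induction S using Finset.induction_on with
    | empty => intro _; exact ⟨⊥, by simpa using ap_one ⊥⟩
    | insert p S hpS ih =>
      intro hS
      obtain ⟨M, hM⟩ := ih (fun q hq => hS q (Finset.mem_insert_of_mem hq))
      have hp := hS p (Finset.mem_insert_self p S)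
      obtain ⟨ha0, -, ha1⟩ := hAAB p hp
      have h1 := (hAP3 _ _ (hIND (Real.log p) (aa p) (logp_pos hp) ha0 ha1).1).1
      have h2 := (hAP2 _ _ _ _ h1 hM).1
      refine ⟨Mw (Real.log p) ⊔ M, ?_⟩
      have h3 : (fun t => ∏ q ∈ insert p S, (1 - ind (Real.log q) (aa q) t))
          = (fun t => 1 - ind (Real.log p) (aa p) t) *
            fun t => ∏ q ∈ S, (1 - ind (Real.log q) (aa q) t) := by
        funext t
        rw [Finset.prod_insert hpS]
        rfl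
      rw [h3]
      exact h2
  obtain ⟨S, hS⟩ : ∃ S : Finset ℕ, S = (Finset.range (y + 1)).filter Nat.Prime := ⟨_, rfl⟩
  have hSp : ∀ p ∈ S, p.Prime := by
    intro p hp
    rw [hS, Finset.mem_filter] at hp
    exact hp.2
  obtain ⟨M, hM⟩ := key S hSp
  obtain ⟨m, hm⟩ := (hAP1 M _ hM).1
  have hreal : ∀ t : ℝ, ∃ x : ℝ, ∏ p ∈ S, (1 - ind (Real.log p) (aa p) t) = (x : ℂ) := by
    intro t
    choose g hg using fun p : ℕ => ind_real (Real.log p) (aa p) t
    refine ⟨∏ p ∈ S, (1 - g p), ?_⟩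
    push_cast
    exact Finset.prod_congr rfl fun p _ => by rw [hg]
  choose g hg using hreal
  have hmr := mean_real hg hm
  refine ⟨m.re, toLD hLOG hHME (GoodY y) _ m.re (Real.log (y + 1)) hM.meas hM.bdd ?_
    (by rw [hmr]; exact hm)⟩
  intro t ht
  have h1 : ∀ p ∈ S, 1 - ind (Real.log p) (aa p) t
      = if ¬ Bd p ⌊Real.exp t⌋₊ then (1 : ℂ) else 0 := by
    intro p hp
    have hpp := hSp p hp
    have hpy : p ≤ y := by
      rw [hS, Finset.mem_filter, Finset.mem_range] at hp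
      omega
    have hlt : Real.log p ≤ t := by
      refine le_trans ?_ ht
      apply Real.log_le_log (by exact_mod_cast hpp.pos)
      have : (p : ℝ) ≤ y := by exact_mod_cast hpy
      linarith
    obtain ⟨b1, b2⟩ := ind_bd hWIN hpp hlt
    by_cases hb : Bd p ⌊Real.exp t⌋₊
    · rw [b1 hb, if_neg (by simpa using hb), sub_self]
    · rw [b2 hb, if_pos hb, sub_zero]
  rw [Finset.prod_congr rfl h1, Finset.prod_ite_zero, Finset.prod_const_one]
  have h2 : (∀ p ∈ S, ¬ Bd p ⌊Real.exp t⌋₊) ↔ GoodY y ⌊Real.exp t⌋₊ := by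
    unfold GoodY
    constructor
    · intro h p hp hpy
      apply h
      rw [hS, Finset.mem_filter, Finset.mem_range]
      exact ⟨by omega, hp⟩
    · intro h p hp
      rw [hS, Finset.mem_filter, Finset.mem_range] at hp
      exact h p hp.2 (by omega)
  by_cases hG : GoodY y ⌊Real.exp t⌋₊
  · rw [if_pos (h2.mpr hG), if_pos hG]
  · rw [if_neg (fun h => hG (h2.mp h)), if_neg hG]

theorem t_PAIR (hAP2 : S_AP2) (hAP3 : S_AP3) (hIND : S_IND) (hIRR : S_IRR) (hWIN : S_WIN)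
    (hAAB : S_AAB) (hLOG : S_LOG) (hHME : S_HME) : S_PAIR := by
  classical
  have hap : ∀ p : ℕ, p.Prime → AP (Mw (Real.log p)) (ind (Real.log p) (aa p)) ∧
      HasMean (ind (Real.log p) (aa p)) (aa p) := by
    intro p hp
    obtain ⟨ha0, -, ha1⟩ := hAAB p hp
    exact hIND (Real.log p) (aa p) (logp_pos hp) ha0 ha1
  have hap' : ∀ p : ℕ, p.Prime → AP (Mw (Real.log p)) (fun t => 1 - ind (Real.log p) (aa p) t) ∧
      HasMean (fun t => 1 - ind (Real.log p) (aa p) t) (1 - aa p) := by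
    intro p hp
    obtain ⟨h1, h2⟩ := hap p hp
    exact ⟨(hAP3 _ _ h1).1, (hAP3 _ _ h1).2 _ h2⟩
  refine ⟨fun p hp hp2 => ?_, ?_, ?_⟩
  · obtain ⟨h1, h2⟩ := hap' 2 Nat.prime_two
    obtain ⟨h3, h4⟩ := hap p hp
    have h5 := hAP2 _ _ _ _ h1 h3
    have h6 := h5.2 (by exact_mod_cast hIRR 2 p Nat.prime_two hp (Ne.symm hp2)) _ _ h2 h4
    refine toLD hLOG hHME _ _ _ (max (Real.log (2 : ℕ)) (Real.log p)) h5.1.meas h5.1.bdd ?_
      (by push_cast; exact h6)
    intro t ht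
    obtain ⟨b1, b2⟩ := ind_bd hWIN Nat.prime_two ((le_max_left _ _).trans ht)
    obtain ⟨c1, c2⟩ := ind_bd hWIN hp ((le_max_right _ _).trans ht)
    simp only [Pi.mul_apply]
    by_cases hb : Bd 2 ⌊Real.exp t⌋₊ <;> by_cases hc : Bd p ⌊Real.exp t⌋₊
    · rw [b1 hb, c1 hc, if_neg (by tauto)]; ring
    · rw [b1 hb, c2 hc, if_neg (by tauto)]; ring
    · rw [b2 hb, c1 hc, if_pos ⟨hb, hc⟩]; ring
    · rw [b2 hb, c2 hc, if_neg (by tauto)]; ring
  · obtain ⟨h1, h2⟩ := hap' 2 Nat.prime_two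
    obtain ⟨h3, h4⟩ := hap' 3 Nat.prime_three
    have h5 := hAP2 _ _ _ _ h1 h3
    have h6 := h5.2 (by exact_mod_cast hIRR 2 3 Nat.prime_two Nat.prime_three (by norm_num)) _ _ h2 h4
    refine toLD hLOG hHME _ _ _ (max (Real.log (2 : ℕ)) (Real.log (3 : ℕ))) h5.1.meas h5.1.bdd ?_
      (by push_cast; exact h6)
    intro t ht
    obtain ⟨b1, b2⟩ := ind_bd hWIN Nat.prime_two ((le_max_left _ _).trans ht)
    obtain ⟨c1, c2⟩ := ind_bd hWIN Nat.prime_three ((le_max_right _ _).trans ht)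
    simp only [Pi.mul_apply]
    by_cases hb : Bd 2 ⌊Real.exp t⌋₊ <;> by_cases hc : Bd 3 ⌊Real.exp t⌋₊
    · rw [b1 hb, c1 hc, if_neg (by tauto)]; ring
    · rw [b1 hb, c2 hc, if_neg (by tauto)]; ring
    · rw [b2 hb, c1 hc, if_neg (by tauto)]; ring
    · rw [b2 hb, c2 hc, if_pos ⟨hb, hc⟩]; ring
  · obtain ⟨h1, h2⟩ := hap' 2 Nat.prime_two
    refine toLD hLOG hHME _ _ _ (Real.log (2 : ℕ)) h1.meas h1.bdd ?_
      (by push_cast; exact h2)
    intro t ht
    obtain ⟨b1, b2⟩ := ind_bd hWIN Nat.prime_two ht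
    by_cases hb : Bd 2 ⌊Real.exp t⌋₊
    · rw [b1 hb, if_neg (by tauto)]; ring
    · rw [b2 hb, if_pos hb]; ring

end Pool.Agent.H99.LD
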