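import Pool.Agent.H6.LD.Stm

set_option autoImplicit false

open Filter Topology

namespace Pool.Agent.H99.LD

open Pool.Agent.H6.LD

lemma LS_mono {E F : ℕ → Prop} (h : ∀ k, E k → F k) (x : ℕ) : LS E x ≤ LS F x := by
  classical
  unfold LS
  apply Finset.sum_le_sum_of_subset_of_nonneg
  · intro k hk
    simp only [Finset.mem_filter] at hk ⊢
    exact ⟨hk.1, h k hk.2⟩
  · intro k _ _
    positivity

lemma LS_nonneg (E : ℕ → Prop) (x : ℕ) : 0 ≤ LS E x := by
  classical
  unfold LS
  exact Finset.sum_nonneg fun k _ => by positivity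

lemma LS_le_add {E F G : ℕ → Prop} (h : ∀ k, E k → F k ∨ G k) (x : ℕ) :
    LS E x ≤ LS F x + LS G x := by
  classical
  unfold LS
  simp only [Finset.sum_filter]
  rw [← Finset.sum_add_distrib]
  apply Finset.sum_le_sum
  intro k _
  have h0 : (0 : ℝ) ≤ 1 / (k : ℝ) := by positivity
  by_cases hE : E k
  · rcases h k hE with hF | hG
    · rw [if_pos hE, if_pos hF]
      split_ifs <;> linarith
    · rw [if_pos hE, if_pos hG]
      split_ifs <;> linarith
  · rw [if_neg hE]
    split_ifs <;> linarith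

lemma HasLD_nonneg {E : ℕ → Prop} {m : ℝ} (h : HasLD E m) : 0 ≤ m := by
  refine ge_of_tendsto h ?_
  filter_upwards [eventually_ge_atTop 1] with x hx
  have h1 : 0 ≤ Real.log (x : ℝ) := Real.log_nonneg (by exact_mod_cast hx)
  have h2 := LS_nonneg E x
  positivity

lemma HasLD_mono {E F : ℕ → Prop} (hEF : ∀ k, E k → F k) {m n : ℝ} (h : HasLD E m)
    (h' : HasLD F n) : m ≤ n := by
  refine le_of_tendsto_of_tendsto h h' ?_
  filter_upwards [eventually_ge_atTop 1] with x hx
  have h1 : 0 ≤ Real.log (x : ℝ) := Real.log_nonneg (by exact_mod_cast hx)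
  exact mul_le_mul_of_nonneg_left (LS_mono hEF x) (by positivity)

lemma goodY_anti {y y' : ℕ} (h : y ≤ y') (k : ℕ) (hk : GoodY y' k) : GoodY y k :=
  fun p hp hpy => hk p hp (hpy.trans h)

lemma good_goodY (y k : ℕ) (hk : Good k) : GoodY y k := fun p hp _ => hk p hp

theorem t_LIM (hFIN : S_FIN) (hTAIL : S_TAIL) : S_LIM := by
  classical
  choose M hM using hFIN
  have hMa : Antitone M := fun y y' hyy => HasLD_mono (goodY_anti hyy) (hM y') (hM y)
  have hbd : BddBelow (Set.range M) := ⟨0, by rintro _ ⟨y, rfl⟩; exact HasLD_nonneg (hM y)⟩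
  have hlim : Tendsto M atTop (𝓝 (⨅ y, M y)) := tendsto_atTop_ciInf hMa hbd
  refine ⟨⨅ y, M y, ?_, ?_⟩
  · unfold HasLD
    rw [Metric.tendsto_atTop]
    intro ε hε
    obtain ⟨y0, hy0⟩ := hTAIL (ε / 4) (by positivity)
    obtain ⟨y1, hy1⟩ := (Metric.tendsto_atTop.mp hlim) (ε / 4) (by positivity)
    obtain ⟨y, hyd⟩ : ∃ y, y = max y0 y1 := ⟨_, rfl⟩
    have hyy0 : y0 ≤ y := by rw [hyd]; exact le_max_left _ _
    have hyy1 : y1 ≤ y := by rw [hyd]; exact le_max_right _ _
    have hMy := hM y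
    unfold HasLD at hMy
    rw [Metric.tendsto_atTop] at hMy
    obtain ⟨x0, hx0⟩ := hMy (ε / 4) (by positivity)
    refine ⟨max x0 2, fun x hx => ?_⟩
    have hxx0 : x0 ≤ x := (le_max_left _ _).trans hx
    have hx2 : 2 ≤ x := (le_max_right _ _).trans hx
    have hL : 0 < Real.log (x : ℝ) := Real.log_pos (by exact_mod_cast (by omega : 1 < x))
    have a1 := hy1 y hyy1
    have a2 := hx0 x hxx0
    have a3 := hy0 y hyy0 x hx2
    have a4 : LS Good x ≤ LS (GoodY y) x := LS_mono (good_goodY y) x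
    have a5 : LS (GoodY y) x ≤ LS Good x + LS (fun k => ∃ p, p.Prime ∧ y < p ∧ Bd p k) x := by
      apply LS_le_add
      intro k hk
      by_cases hG : Good k
      · exact Or.inl hG
      · right
        unfold Good at hG
        push Not at hG
        obtain ⟨p, hp, hb⟩ := hG
        refine ⟨p, hp, ?_, hb⟩
        by_contra hlt
        exact hk p hp (not_lt.mp hlt) hb
    rw [Real.dist_eq, abs_lt] at a1 a2 ⊢
    have b1 : (1 / Real.log (x : ℝ)) * LS Good x ≤ (1 / Real.log (x : ℝ)) * LS (GoodY y) x :=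
      mul_le_mul_of_nonneg_left a4 (by positivity)
    have b2 : (1 / Real.log (x : ℝ)) * LS (GoodY y) x
        ≤ (1 / Real.log (x : ℝ)) * LS Good x + ε / 4 := by
      have c1 : (1 / Real.log (x : ℝ)) * LS (GoodY y) x
          ≤ (1 / Real.log (x : ℝ)) * (LS Good x + ε / 4 * Real.log x) :=
        mul_le_mul_of_nonneg_left (by linarith) (by positivity)
      have c2 : (1 / Real.log (x : ℝ)) * (LS Good x + ε / 4 * Real.log x)
          = (1 / Real.log (x : ℝ)) * LS Good x + ε / 4 := by
        field_simp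
      linarith
    constructor
    · linarith [a1.1, a2.1]
    · linarith [a1.2, a2.2]
  · intro y m hm
    have h1 : M y = m := tendsto_nhds_unique (hM y) hm
    rw [← h1]
    exact ciInf_le hbd y

end Pool.Agent.H99.LD
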