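import Pool.Agent.H99.LD.FP
import Pool.Agent.H99.LD.LIM

set_option autoImplicit false

open Filter Topology MeasureTheory

namespace Pool.Agent.H99.LD

open Pool.Agent.H6.LD

/-- if the numbers `1 / log p` are linearly independent over `ℚ` then the density is the product of the question -/
def S_IDP : Prop := LinearIndependent ℚ (fun p : Nat.Primes => 1 / Real.log ((p : ℕ) : ℝ)) →
  ∀ d : ℝ, HasLD Good d → HasProd (fun p : Nat.Primes => 1 - aa (p : ℕ)) d

lemma mean_one : HasMean (fun _ => (1 : ℂ)) 1 := by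
  unfold HasMean
  apply Tendsto.congr' (f₁ := fun _ : ℝ => (1 : ℂ)) _ tendsto_const_nhds
  filter_upwards [eventually_gt_atTop 0] with T hT
  have h : (T : ℂ) ≠ 0 := by exact_mod_cast hT.ne'
  rw [intervalIntegral.integral_const]
  simp [h]

/-- the rational span of the numbers `1 / log p`, `p ∈ S` -/
noncomputable def VS (S : Set Nat.Primes) : Submodule ℚ ℝ :=
  Submodule.span ℚ ((fun p : Nat.Primes => 1 / Real.log ((p : ℕ) : ℝ)) '' S)

lemma key_mean (hAP2 : S_AP2) (hAP3 : S_AP3) (hIND : S_IND) (hAAB : S_AAB)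
    (hli : LinearIndependent ℚ (fun p : Nat.Primes => 1 / Real.log ((p : ℕ) : ℝ))) :
    ∀ S : Finset Nat.Primes, ∃ M : AddSubgroup ℝ, (∀ x ∈ M, x / (2 * Real.pi) ∈ VS (S : Set Nat.Primes)) ∧
      AP M (fun t => ∏ p ∈ S, (1 - ind (Real.log ((p : ℕ) : ℝ)) (aa (p : ℕ)) t)) ∧
      HasMean (fun t => ∏ p ∈ S, (1 - ind (Real.log ((p : ℕ) : ℝ)) (aa (p : ℕ)) t))
        (∏ p ∈ S, (1 - (aa (p : ℕ) : ℂ))) := by
  classical
  have hpi : (2 * Real.pi) ≠ 0 := by positivity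
  intro S
  induction S using Finset.induction_on with
  | empty =>
    refine ⟨⊥, ?_, by simpa using ap_one ⊥, by simpa using mean_one⟩
    intro x hx
    rw [AddSubgroup.mem_bot] at hx
    rw [hx, zero_div]
    exact Submodule.zero_mem _
  | insert p S hpS ih =>
    obtain ⟨M, hMV, hM, hMm⟩ := ih
    have hp : (p : ℕ).Prime := p.2
    obtain ⟨ha0, -, ha1⟩ := hAAB p hp
    obtain ⟨i1, i2⟩ := hIND (Real.log ((p : ℕ) : ℝ)) (aa (p : ℕ)) (logp_pos hp) ha0 ha1
    obtain ⟨j1, j2⟩ := hAP3 _ _ i1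
    have j3 := j2 _ i2
    have hmem : ∀ n : ℤ, (n • (2 * Real.pi / Real.log ((p : ℕ) : ℝ))) / (2 * Real.pi)
        = (n : ℚ) • (1 / Real.log ((p : ℕ) : ℝ)) := by
      intro n
      have hl := (logp_pos hp).ne'
      rw [Rat.smul_def, zsmul_eq_mul]
      push_cast
      field_simp
    have hbot : Mw (Real.log ((p : ℕ) : ℝ)) ⊓ M = ⊥ := by
      rw [eq_bot_iff]
      rintro x ⟨hx1, hx2⟩
      obtain ⟨n, rfl⟩ := AddSubgroup.mem_zmultiples_iff.mp hx1
      have h1 := hMV _ hx2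
      rw [hmem n] at h1
      by_cases hn : n = 0
      · rw [hn, zero_smul]; exact AddSubgroup.zero_mem _
      · exfalso
        have h2 : (1 / Real.log ((p : ℕ) : ℝ)) ∈ VS (S : Set Nat.Primes) := by
          have h3 := Submodule.smul_mem _ ((n : ℚ)⁻¹) h1
          rwa [smul_smul, inv_mul_cancel₀ (by exact_mod_cast hn), one_smul] at h3
        exact hli.notMem_span_image (by exact_mod_cast hpS) h2
    obtain ⟨k1, k2⟩ := hAP2 _ _ _ _ j1 hM
    have k3 := k2 hbot _ _ j3 hMm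
    have h3 : (fun t => ∏ q ∈ insert p S, (1 - ind (Real.log ((q : ℕ) : ℝ)) (aa (q : ℕ)) t))
        = (fun t => 1 - ind (Real.log ((p : ℕ) : ℝ)) (aa (p : ℕ)) t) *
          fun t => ∏ q ∈ S, (1 - ind (Real.log ((q : ℕ) : ℝ)) (aa (q : ℕ)) t) := by
      funext t
      rw [Finset.prod_insert hpS]
      rfl
    refine ⟨Mw (Real.log ((p : ℕ) : ℝ)) ⊔ M, ?_, ?_, ?_⟩
    · intro x hx
      obtain ⟨a, ha, b, hb, rfl⟩ := AddSubgroup.mem_sup.mp hx
      rw [add_div]
      apply Submodule.add_mem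
      · obtain ⟨n, rfl⟩ := AddSubgroup.mem_zmultiples_iff.mp ha
        rw [hmem n]
        apply Submodule.smul_mem
        exact Submodule.subset_span ⟨p, by simp, rfl⟩
      · refine Submodule.span_mono ?_ (hMV b hb)
        exact Set.image_mono (by simp)
    · rw [h3]; exact k1
    · rw [h3, Finset.prod_insert hpS]; exact k3

theorem fin_set (hAP2 : S_AP2) (hAP3 : S_AP3) (hIND : S_IND) (hWIN : S_WIN)
    (hAAB : S_AAB) (hLOG : S_LOG) (hHME : S_HME)
    (hli : LinearIndependent ℚ (fun p : Nat.Primes => 1 / Real.log ((p : ℕ) : ℝ)))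
    (S : Finset Nat.Primes) :
    HasLD (fun k => ∀ p ∈ S, ¬ Bd (p : ℕ) k) (∏ p ∈ S, (1 - aa (p : ℕ))) := by
  classical
  obtain ⟨M, -, hM, hMm⟩ := key_mean hAP2 hAP3 hIND hAAB hli S
  refine toLD hLOG hHME _ _ _ (∑ p ∈ S, Real.log ((p : ℕ) : ℝ)) hM.meas hM.bdd ?_
    (by push_cast; exact hMm)
  intro t ht
  have h1 : ∀ p ∈ S, 1 - ind (Real.log ((p : ℕ) : ℝ)) (aa (p : ℕ)) t
      = if ¬ Bd (p : ℕ) ⌊Real.exp t⌋₊ then (1 : ℂ) else 0 := by
    intro p hp
    have hlt : Real.log ((p : ℕ) : ℝ) ≤ t :=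
      le_trans (Finset.single_le_sum (f := fun p : Nat.Primes => Real.log ((p : ℕ) : ℝ))
        (fun q _ => (logp_pos q.2).le) hp) ht
    obtain ⟨b1, b2⟩ := ind_bd hWIN p.2 hlt
    by_cases hb : Bd (p : ℕ) ⌊Real.exp t⌋₊
    · rw [b1 hb, if_neg (by simpa using hb), sub_self]
    · rw [b2 hb, if_pos hb, sub_zero]
  rw [Finset.prod_congr rfl h1, Finset.prod_ite_zero, Finset.prod_const_one]
  by_cases h : ∀ p ∈ S, ¬ Bd (p : ℕ) ⌊Real.exp t⌋₊
  · rw [if_pos h, if_pos h]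
  · rw [if_neg h, if_neg h]

theorem t_IDP (hAP2 : S_AP2) (hAP3 : S_AP3) (hIND : S_IND) (hWIN : S_WIN)
    (hAAB : S_AAB) (hLOG : S_LOG) (hHME : S_HME) (hTAIL : S_TAIL) : S_IDP := by
  classical
  intro hli d hd
  have hS := fin_set hAP2 hAP3 hIND hWIN hAAB hLOG hHME hli
  unfold HasProd
  rw [SummationFilter.unconditional_filter, Metric.tendsto_atTop]
  intro ε hε
  obtain ⟨y, hy⟩ := hTAIL (ε / 2) (by positivity)
  obtain ⟨S0, hS0⟩ : ∃ S0 : Finset Nat.Primes, ∀ p : Nat.Primes, (p : ℕ) ≤ y → p ∈ S0 := by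
    have hf : {p : Nat.Primes | (p : ℕ) ≤ y}.Finite := by
      apply Set.Finite.of_finite_image (f := fun p : Nat.Primes => (p : ℕ))
      · exact (Set.finite_Iic y).subset (by rintro _ ⟨p, hp, rfl⟩; exact hp)
      · intro a _ b _ hab
        exact Subtype.ext hab
    exact ⟨hf.toFinset, fun p hp => by simpa using hp⟩
  refine ⟨S0, fun S hSS => ?_⟩
  have h1 : d ≤ ∏ p ∈ S, (1 - aa (p : ℕ)) :=
    HasLD_mono (E := Good) (F := fun k => ∀ p ∈ S, ¬ Bd (p : ℕ) k)
      (fun k hk p _ => hk (p : ℕ) p.2) hd (hS S)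
  have h2 : ∏ p ∈ S, (1 - aa (p : ℕ)) ≤ d + ε / 2 := by
    have h3 : Tendsto (fun x : ℕ => (1 / Real.log x) * LS Good x + ε / 2) atTop (𝓝 (d + ε / 2)) :=
      hd.add_const _
    refine le_of_tendsto_of_tendsto (hS S) h3 ?_
    filter_upwards [eventually_ge_atTop 2] with x hx
    have hL : 0 < Real.log (x : ℝ) := Real.log_pos (by exact_mod_cast (by omega : 1 < x))
    have a3 := hy y le_rfl x hx
    have a5 : LS (fun k => ∀ p ∈ S, ¬ Bd (p : ℕ) k) x
        ≤ LS Good x + LS (fun k => ∃ p, p.Prime ∧ y < p ∧ Bd p k) x := by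
      apply LS_le_add
      intro k hk
      by_cases hG : Good k
      · exact Or.inl hG
      · right
        unfold Good at hG
        push Not at hG
        obtain ⟨p, hp, hb⟩ := hG
        refine ⟨p, hp, ?_, hb⟩
        by_contra hlt
        exact hk ⟨p, hp⟩ (hSS (hS0 ⟨p, hp⟩ (not_lt.mp hlt))) hb
    have c1 : (1 / Real.log (x : ℝ)) * LS (fun k => ∀ p ∈ S, ¬ Bd (p : ℕ) k) x
        ≤ (1 / Real.log (x : ℝ)) * (LS Good x + ε / 2 * Real.log x) :=
      mul_le_mul_of_nonneg_left (by linarith) (by positivity)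
    have c2 : (1 / Real.log (x : ℝ)) * (LS Good x + ε / 2 * Real.log x)
        = (1 / Real.log (x : ℝ)) * LS Good x + ε / 2 := by
      field_simp
    linarith
  rw [Real.dist_eq, abs_lt]
  constructor <;> linarith

end Pool.Agent.H99.LD
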